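import Pool.Agent.Helper66.DS.Defs

set_option autoImplicit false

namespace Pool.Agent.Helper66.DS

open MeasureTheory Set

namespace Partx

/-- sign -/
def sg (s : Bool) : ℝ := if s then 1 else -1

theorem sg_mul (s : Bool) : sg s * sg s = 1 := by
  cases s <;> simp [sg]

theorem sg_abs (s : Bool) : |sg s| = 1 := by
  cases s <;> simp [sg]

/-- coordinate isometries -/
noncomputable def RR {d : ℕ} (j : Fin (d + 1)) (s : Bool) : E d ≃ₗᵢ[ℝ] E d :=
  if s then LinearIsometryEquiv.piLpCongrLeft 2 ℝ ℝ (Equiv.swap 0 j)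
  else (LinearIsometryEquiv.piLpCongrLeft 2 ℝ ℝ (Equiv.swap 0 j)).trans (LinearIsometryEquiv.neg ℝ)

theorem RR_apply {d : ℕ} (j : Fin (d + 1)) (s : Bool) (x : E d) (i : Fin (d + 1)) :
    RR j s x i = sg s * x (Equiv.swap 0 j i) := by
  cases s
  · simp [RR, sg, LinearIsometryEquiv.piLpCongrLeft_apply]
  · simp [RR, sg, LinearIsometryEquiv.piLpCongrLeft_apply]

theorem RR_zero {d : ℕ} (j : Fin (d + 1)) (s : Bool) (x : E d) :
    RR j s x 0 = sg s * x j := by
  rw [RR_apply, Equiv.swap_apply_left]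

/-- the open cone around the first axis -/
def O (d : ℕ) : Set (E d) := {x | ∀ i : Fin d, |x i.succ| < x 0}

theorem RR_mem_O {d : ℕ} (j : Fin (d + 1)) (s : Bool) (x : E d) :
    RR j s x ∈ O d ↔ ∀ k, k ≠ j → |x k| < sg s * x j := by
  unfold O
  simp only [Set.mem_ofPred_eq, RR_zero]
  constructor
  · intro h k hk
    have hne : Equiv.swap 0 j k ≠ 0 := by
      intro h0
      apply hk
      have := congrArg (Equiv.swap 0 j) h0
      rwa [Equiv.swap_apply_self, Equiv.swap_apply_left] at this
    obtain ⟨i, hi⟩ := Fin.exists_succ_eq.2 hne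
    have := h i
    rw [RR_apply, hi, Equiv.swap_apply_self, abs_mul, sg_abs, one_mul] at this
    exact this
  · intro h i
    rw [RR_apply, abs_mul, sg_abs, one_mul]
    apply h
    intro h0
    have := congrArg (Equiv.swap 0 j) h0
    rw [Equiv.swap_apply_self, Equiv.swap_apply_right] at this
    exact Fin.succ_ne_zero i this

theorem dir_RR {d : ℕ} (j : Fin (d + 1)) (s : Bool) (x : E d) :
    dir (RR j s x) = RR j s (dir x) := by
  unfold dir
  rw [LinearIsometryEquiv.norm_map, map_smul]

theorem null_hyper {d : ℕ} (i k : Fin (d + 1)) (hik : i ≠ k) (c : ℝ) :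
    volume {x : E d | x i + c * x k = 0} = 0 := by
  let f : E d →ₗ[ℝ] ℝ := 
    { toFun := fun x => x i + c * x k
      map_add' := fun x y => by simp; ring
      map_smul' := fun r x => by simp; ring }
  have h : (LinearMap.ker f : Set (E d)) = {x : E d | x i + c * x k = 0} := by
    ext x
    simp [f]
  rw [← h]
  apply Measure.addHaar_submodule
  intro htop
  have h1 : (EuclideanSpace.single i (1:ℝ) : E d) ∈ LinearMap.ker f := by rw [htop]; trivial
  rw [LinearMap.mem_ker] at h1
  simp [f, hik.symm] at h1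


theorem meas_coord {d : ℕ} (i : Fin (d + 1)) : Measurable fun x : E d => x i := by
  fun_prop

theorem meas_O (d : ℕ) : MeasurableSet (O d) := by
  unfold O
  rw [show {x : E d | ∀ i : Fin d, |x i.succ| < x 0} = ⋂ i : Fin d, {x : E d | |x i.succ| < x 0} by
    ext x; simp]
  refine MeasurableSet.iInter fun i => ?_
  exact measurableSet_lt (meas_coord _).abs (meas_coord _)

theorem meas_ball (d : ℕ) : MeasurableSet (ball1 d) := measurableSet_ball

theorem meas_cone {d : ℕ} (a b : Fin d → ℝ) : MeasurableSet (coneCell a b) := by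
  unfold coneCell
  rw [show {x : E d | x ∈ ball1 d ∧ 0 < x 0 ∧ ∀ i : Fin d, a i * x 0 ≤ x i.succ ∧
      x i.succ < b i * x 0} = ball1 d ∩ ({x : E d | 0 < x 0} ∩ ⋂ i : Fin d,
      ({x : E d | a i * x 0 ≤ x i.succ} ∩ {x : E d | x i.succ < b i * x 0})) by
    ext x; simp; tauto]
  refine (meas_ball d).inter ((measurableSet_lt measurable_const (meas_coord _)).inter
    (MeasurableSet.iInter fun i => ?_))
  exact (measurableSet_le ((meas_coord _).const_mul _) (meas_coord _)).inter
    (measurableSet_lt (meas_coord _) ((meas_coord _).const_mul _))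

theorem cone_diff_null {d : ℕ} (a b : Fin d → ℝ) (ha : ∀ i, -1 ≤ a i) (hb : ∀ i, b i ≤ 1) :
    volume (coneCell a b \ O d) = 0 := by
  have hsub : coneCell a b \ O d ⊆ ⋃ i : Fin d, {x : E d | x i.succ + 1 * x 0 = 0} := by
    rintro x ⟨⟨_, hx0, hx⟩, hO⟩
    unfold O at hO
    simp only [Set.mem_ofPred_eq, not_forall, not_lt] at hO
    obtain ⟨i, hi⟩ := hO
    rw [mem_iUnion]
    refine ⟨i, ?_⟩
    have h1 := (hx i).1
    have h2 := (hx i).2
    have h3 : -1 * x 0 ≤ a i * x 0 := by
      have := ha i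
      gcongr
    have h4 : b i * x 0 ≤ 1 * x 0 := by
      have := hb i
      gcongr
    have h5 : x i.succ < x 0 := by linarith
    have h6 : x i.succ < 0 := by
      by_contra h7
      push Not at h7
      rw [abs_of_nonneg h7] at hi
      linarith
    rw [abs_of_neg h6] at hi
    show x i.succ + 1 * x 0 = 0
    linarith
  refine measure_mono_null hsub ?_
  rw [measure_iUnion_null_iff]
  intro i
  exact null_hyper _ _ (Fin.succ_ne_zero i) 1

theorem cone_inter {d : ℕ} (a b : Fin d → ℝ) (ha : ∀ i, -1 ≤ a i) (hb : ∀ i, b i ≤ 1) :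
    volume.real (coneCell a b ∩ O d) = volume.real (coneCell a b) := by
  unfold Measure.real
  congr 1
  have := measure_inter_add_sdiff (μ := (volume : Measure (E d))) (coneCell a b) (meas_O d)
  rw [cone_diff_null a b ha hb, add_zero] at this
  exact this

/-- one of the `2(d+1)` sectors -/
def G (d : ℕ) : Set (E d) := ball1 d ∩ O d

theorem meas_G (d : ℕ) : MeasurableSet (G d) := (meas_ball d).inter (meas_O d)

theorem G_eq (d : ℕ) (hd : 1 ≤ d) :
    coneCell (fun _ : Fin d => (-1 : ℝ)) (fun _ => 1) ∩ O d = G d := by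
  unfold G
  ext x
  constructor
  · rintro ⟨⟨h, _⟩, h2⟩
    exact ⟨h, h2⟩
  · rintro ⟨h, h2⟩
    refine ⟨⟨h, ?_, ?_⟩, h2⟩
    · have := h2 ⟨0, hd⟩
      have h3 := abs_nonneg (x (Fin.succ ⟨0, hd⟩))
      linarith
    · intro i
      have := abs_lt.1 (h2 i)
      constructor <;> linarith

theorem pre_vol {d : ℕ} (j : Fin (d + 1)) (s : Bool) (S : Set (E d)) (hS : MeasurableSet S) :
    volume.real (RR j s ⁻¹' S) = volume.real S := by
  unfold Measure.real
  rw [(RR j s).measurePreserving.measure_preimage hS.nullMeasurableSet]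

theorem ball_RR {d : ℕ} (j : Fin (d + 1)) (s : Bool) (x : E d) :
    RR j s x ∈ ball1 d ↔ x ∈ ball1 d := by
  unfold ball1
  rw [mem_ball_zero_iff, mem_ball_zero_iff, LinearIsometryEquiv.norm_map]

theorem disj_O {d : ℕ} (hd : 1 ≤ d) (j j' : Fin (d + 1)) (s s' : Bool) (x : E d)
    (h : RR j s x ∈ O d) (h' : RR j' s' x ∈ O d) : j = j' ∧ s = s' := by
  rw [RR_mem_O] at h h'
  have ab : ∀ (t : Bool) (y : ℝ), 0 ≤ sg t * y → sg t * y = |y| := by
    intro t y hy
    rw [← abs_of_nonneg hy, abs_mul, sg_abs, one_mul]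
  have hpos : ∀ (j : Fin (d + 1)) (s : Bool), (∀ k, k ≠ j → |x k| < sg s * x j) → 0 < sg s * x j := by
    intro j s h
    have : Nontrivial (Fin (d + 1)) := Fin.nontrivial_iff_two_le.2 (by omega)
    obtain ⟨k, hk⟩ := exists_ne j
    exact lt_of_le_of_lt (abs_nonneg _) (h k hk)
  have p1 := hpos j s h
  have p2 := hpos j' s' h'
  have hj : j = j' := by
    by_contra hne
    have h1 := h j' (Ne.symm hne)
    have h2 := h' j hne
    rw [ab s _ p1.le] at h1
    rw [ab s' _ p2.le] at h2
    linarith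
  subst hj
  refine ⟨rfl, ?_⟩
  cases s <;> cases s' <;> simp [sg] at p1 p2 ⊢ <;> linarith

/-- the volume of the ball -/
theorem ball_vol (d : ℕ) (hd : 1 ≤ d) :
    volume.real (ball1 d) = 2 * (d + 1) * volume.real (G d) := by
  have hfin : volume (ball1 d) ≠ ⊤ := measure_ball_lt_top.ne
  have hGfin : ∀ (i : Fin (d + 1) × Bool), volume (RR i.1 i.2 ⁻¹' G d) ≠ ⊤ := by
    intro i
    refine ne_top_of_le_ne_top hfin (measure_mono ?_)
    intro x hx
    exact (ball_RR i.1 i.2 x).1 hx.1
  set U : Set (E d) := ⋃ i : Fin (d + 1) × Bool, RR i.1 i.2 ⁻¹' G d with hU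
  have hUsub : U ⊆ ball1 d := by
    intro x hx
    rw [hU, mem_iUnion] at hx
    obtain ⟨i, hi⟩ := hx
    exact (ball_RR i.1 i.2 x).1 hi.1
  have hUmeas : volume.real U = 2 * (d + 1) * volume.real (G d) := by
    rw [hU, measureReal_iUnion_fintype]
    · rw [Finset.sum_congr rfl (fun i _ => pre_vol i.1 i.2 (G d) (meas_G d)), Finset.sum_const,
        Finset.card_univ, Fintype.card_prod, Fintype.card_fin, Fintype.card_bool, nsmul_eq_mul]
      push_cast
      ring
    · intro i i' hii
      rw [Function.onFun, Set.disjoint_left]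
      intro x hx hx'
      obtain ⟨e1, e2⟩ := disj_O hd _ _ _ _ x hx.2 hx'.2
      exact hii (Prod.ext e1 e2)
    · intro i
      exact (RR i.1 i.2).continuous.measurable (meas_G d)
  have hnull : volume (ball1 d \ U) = 0 := by
    have hsub : ball1 d \ U ⊆ ⋃ i : Fin (d + 1), ⋃ k : Fin (d + 1), ⋃ _ : i ≠ k,
        ({x : E d | x i + 1 * x k = 0} ∪ {x : E d | x i + (-1) * x k = 0}) := by
      rintro x ⟨hxb, hxU⟩
      by_contra hcon
      apply hxU
      obtain ⟨j, -, hj⟩ := Finset.exists_max_image Finset.univ (fun i => |x i|) ⟨0, Finset.mem_univ _⟩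
      have hlt : ∀ k, k ≠ j → |x k| < |x j| := by
        intro k hk
        refine lt_of_le_of_ne (hj k (Finset.mem_univ _)) ?_
        intro heq
        apply hcon
        rw [mem_iUnion]
        refine ⟨k, ?_⟩
        rw [mem_iUnion]
        refine ⟨j, ?_⟩
        rw [mem_iUnion]
        refine ⟨hk, ?_⟩
        rcases abs_eq_abs.1 heq with h | h
        · right
          show x k + (-1) * x j = 0
          rw [h]; ring
        · left
          show x k + 1 * x j = 0
          rw [h]; ring
      rw [hU, mem_iUnion]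
      by_cases h0 : 0 ≤ x j
      · refine ⟨(j, true), (ball_RR _ _ _).2 hxb, ?_⟩
        rw [RR_mem_O]
        intro k hk
        have := hlt k hk
        rw [abs_of_nonneg h0] at this
        simpa [sg] using this
      · push Not at h0
        refine ⟨(j, false), (ball_RR _ _ _).2 hxb, ?_⟩
        rw [RR_mem_O]
        intro k hk
        have := hlt k hk
        rw [abs_of_neg h0] at this
        simpa [sg] using this
    refine measure_mono_null hsub ?_
    rw [measure_iUnion_null_iff]
    intro i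
    rw [measure_iUnion_null_iff]
    intro k
    rw [measure_iUnion_null_iff]
    intro hik
    rw [measure_union_null_iff]
    exact ⟨null_hyper _ _ hik 1, null_hyper _ _ hik (-1)⟩
  rw [← hUmeas]
  unfold Measure.real
  congr 1
  apply le_antisymm
  · calc volume (ball1 d) ≤ volume (U ∪ (ball1 d \ U)) := by
          apply measure_mono
          intro x hx
          by_cases h : x ∈ U
          · exact Or.inl h
          · exact Or.inr ⟨hx, h⟩
      _ ≤ volume U + volume (ball1 d \ U) := measure_union_le _ _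
      _ = volume U := by rw [hnull, add_zero]
  · exact measure_mono hUsub

end Partx

open Partx

/-! Module Part, from `face_cells` -/
theorem exists_cells (d : ℕ) (hd : 1 ≤ d)
    (hface : ∃ C : ℝ, 0 < C ∧ ∀ m : ℕ, 1 ≤ m →
    ∃ (P : Type) (_ : Fintype P) (a b : P → Fin d → ℝ),
      Fintype.card P = m ^ d ∧
      (∀ p i, -1 ≤ a p i ∧ a p i < b p i ∧ b p i ≤ 1) ∧
      (∀ p p', p ≠ p' → Disjoint (coneCell (a p) (b p)) (coneCell (a p') (b p'))) ∧
      (∀ p, volume.real (coneCell (a p) (b p)) * (m : ℝ) ^ d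
        = volume.real (coneCell (fun _ : Fin d => (-1 : ℝ)) (fun _ => 1))) ∧
      (∀ p, ∀ x ∈ coneCell (a p) (b p), ∀ y ∈ coneCell (a p) (b p),
        ‖dir x - dir y‖ ≤ C / m)) : ∃ C : ℝ, 0 < C ∧ ∀ m : ℕ, 1 ≤ m →
    Nonempty (Cells d (2 * (d + 1) * m ^ d) (C / m)) := by
  obtain ⟨C, hC, h⟩ := hface
  refine ⟨C, hC, fun m hm => ?_⟩
  obtain ⟨P, hP, a, b, hcard, hab, hdisj, hvol, hdiam⟩ := h m hm
  have hc : Fintype.card (P × Fin (d + 1) × Bool) = 2 * (d + 1) * m ^ d := by
    rw [Fintype.card_prod, Fintype.card_prod, hcard, Fintype.card_fin, Fintype.card_bool]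
    ring
  let e := Fintype.equivFinOfCardEq hc
  have hmeas : ∀ p, MeasurableSet (coneCell (a p) (b p) ∩ O d) := fun p =>
    (meas_cone _ _).inter (meas_O d)
  refine ⟨{
    A := fun i => RR (e.symm i).2.1 (e.symm i).2.2 ⁻¹'
      (coneCell (a (e.symm i).1) (b (e.symm i).1) ∩ O d)
    meas := fun i => (RR _ _).continuous.measurable (hmeas _)
    sub := ?_
    nz := ?_
    disj := ?_
    vol := ?_
    diam := ?_ }⟩
  · intro i x hx
    exact (ball_RR _ _ x).1 hx.1.1
  · intro i hx
    have := hx.1.2.1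
    rw [map_zero] at this
    simp at this
  · intro i i' hii
    rw [Set.disjoint_left]
    intro x hx hx'
    obtain ⟨e1, e2⟩ := disj_O hd _ _ _ _ x hx.2 hx'.2
    have hp : (e.symm i).1 ≠ (e.symm i').1 := by
      intro hp
      apply hii
      apply e.symm.injective
      exact Prod.ext hp (Prod.ext e1 e2)
    have h1 := hx.1
    have h2 := hx'.1
    rw [← e1, ← e2] at h2
    exact Set.disjoint_left.1 (hdisj _ _ hp) h1 h2
  · intro i
    rw [pre_vol _ _ _ (hmeas _), cone_inter _ _ (fun k => (hab _ k).1) (fun k => (hab _ k).2.2)]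
    have h1 := hvol (e.symm i).1
    have h2 : volume.real (coneCell (fun _ : Fin d => (-1 : ℝ)) (fun _ => 1)) =
        volume.real (G d) := by
      rw [← G_eq d hd, cone_inter _ _ (fun _ => le_rfl) (fun _ => le_rfl)]
    rw [h2] at h1
    rw [ball_vol d hd, ← h1]
    push_cast
    ring
  · intro i x hx y hy
    have := hdiam _ _ hx.1 _ hy.1
    rwa [dir_RR, dir_RR, ← map_sub, LinearIsometryEquiv.norm_map] at this

end Pool.Agent.Helper66.DS
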